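import Pool.Agent.Y676.Defs2
import Pool.Agent.Helper256.KM.Mertens

/-! Task RNK (helper676, job 440) by helper660: few prime factors in a set of primes; adapted from
`Pool.Agent.H495R3.NA.TaskRK`. -/

set_option autoImplicit false

open Finset

namespace Pool.Agent.Y660.TS

open Pool.Agent.Y676

/-- the number of the prime factors in `S` -/
def cnt (S : Finset ℕ) (m : ℕ) : ℕ := (m.primeFactors ∩ S).card

/-- the weight `2 ^ (- cnt S m)` -/
noncomputable def hh (S : Finset ℕ) (m : ℕ) : ℝ := (1 / 2 : ℝ) ^ cnt S m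

lemma hh_pos (S : Finset ℕ) (m : ℕ) : 0 < hh S m := by unfold hh; positivity

lemma hh_le_one (S : Finset ℕ) (m : ℕ) : hh S m ≤ 1 := pow_le_one₀ (by norm_num) (by norm_num)

lemma hh_one (S : Finset ℕ) : hh S 1 = 1 := by simp [hh, cnt]

lemma cnt_mul {S : Finset ℕ} {m n : ℕ} (h : Nat.Coprime m n) :
    cnt S (m * n) = cnt S m + cnt S n := by
  unfold cnt
  rw [Nat.Coprime.primeFactors_mul h, Finset.union_inter_distrib_right,
    Finset.card_union_of_disjoint]
  exact Disjoint.mono inter_subset_left inter_subset_left h.disjoint_primeFactors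

lemma hh_mul {S : Finset ℕ} {m n : ℕ} (h : Nat.Coprime m n) : hh S (m * n) = hh S m * hh S n := by
  unfold hh; rw [cnt_mul h, pow_add]

lemma hh_le {S : Finset ℕ} {d n : ℕ} (hd : IsPrimePow d) (hn : n ≠ 0) :
    hh S (d * n) ≤ 1 * hh S n := by
  unfold hh
  rw [one_mul]
  apply pow_le_pow_of_le_one (by norm_num) (by norm_num)
  unfold cnt
  apply Finset.card_le_card
  apply Finset.inter_subset_inter_right
  exact Nat.primeFactors_mono (Dvd.intro_left _ rfl) (mul_ne_zero hd.ne_zero hn)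

lemma hh_prime {S : Finset ℕ} {p : ℕ} (hp : p.Prime) : hh S p = if p ∈ S then 1 / 2 else 1 := by
  unfold hh cnt
  rw [hp.primeFactors]
  by_cases h : p ∈ S
  · rw [Finset.singleton_inter_of_mem h, if_pos h, card_singleton, pow_one]
  · rw [Finset.singleton_inter_of_notMem h, if_neg h, card_empty, pow_zero]

/-- the sum with the logarithm -/
lemma sum_log (S : Finset ℕ) (Y : ℕ) : ∑ m ∈ Icc 1 Y, hh S m * Real.log m ≤
    1 * ((Real.log 4 + 4) * Y * ∑ m ∈ Icc 1 Y, hh S m / m) := by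
  have h1 : ∀ m ∈ Icc 1 Y, hh S m * Real.log m ≤
      ∑ n ∈ m.divisors, ArithmeticFunction.vonMangoldt (m / n) * (1 * hh S n) := by
    intro m hm
    have hm0 : m ≠ 0 := by have := (Finset.mem_Icc.mp hm).1; omega
    rw [← ArithmeticFunction.vonMangoldt_sum, ← Nat.sum_div_divisors, Finset.mul_sum]
    refine Finset.sum_le_sum fun n hn => ?_
    have hnm := Nat.dvd_of_mem_divisors hn
    have hn0 : n ≠ 0 := fun h => hm0 (by rw [h] at hnm; exact Nat.eq_zero_of_zero_dvd hnm)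
    by_cases hpp : IsPrimePow (m / n)
    · have h2 := hh_le (S := S) hpp hn0
      rw [Nat.div_mul_cancel hnm] at h2
      have h3 : 0 ≤ ArithmeticFunction.vonMangoldt (m / n) :=
        ArithmeticFunction.vonMangoldt_nonneg
      rw [mul_comm]
      exact mul_le_mul_of_nonneg_left h2 h3
    · have h3 : ArithmeticFunction.vonMangoldt (m / n) = 0 :=
        ArithmeticFunction.vonMangoldt_eq_zero_iff.mpr hpp
      rw [h3]; simp
  refine (Finset.sum_le_sum h1).trans ?_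
  have h2 : ∑ m ∈ Icc 1 Y, ∑ n ∈ m.divisors,
      ArithmeticFunction.vonMangoldt (m / n) * (1 * hh S n) =
      ∑ n ∈ Icc 1 Y, ∑ m ∈ (Icc 1 Y).filter (fun m => n ∣ m),
        ArithmeticFunction.vonMangoldt (m / n) * (1 * hh S n) := by
    apply Finset.sum_comm'
    intro m n
    simp only [Finset.mem_Icc, Nat.mem_divisors, Finset.mem_filter]
    constructor
    · rintro ⟨⟨h1, h2⟩, h3, h4⟩
      have := Nat.le_of_dvd (by omega) h3
      have h5 : 0 < n := Nat.pos_of_dvd_of_pos h3 (by omega)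
      exact ⟨⟨⟨h1, h2⟩, h3⟩, by omega, by omega⟩
    · rintro ⟨⟨⟨h1, h2⟩, h3⟩, h4, h5⟩
      exact ⟨⟨h1, h2⟩, h3, by omega⟩
  rw [h2, Finset.mul_sum, Finset.mul_sum]
  refine Finset.sum_le_sum fun n hn => ?_
  have hn1 : 1 ≤ n := (Finset.mem_Icc.mp hn).1
  have hn0 : (0 : ℝ) < n := by exact_mod_cast hn1
  rw [← Finset.sum_mul]
  have h3 : ∑ m ∈ (Icc 1 Y).filter (fun m => n ∣ m), ArithmeticFunction.vonMangoldt (m / n) =
      ∑ d ∈ Ioc 0 (Y / n), ArithmeticFunction.vonMangoldt d := by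
    apply Finset.sum_nbij' (fun m => m / n) (fun d => d * n)
    · intro m hm
      simp only [Finset.mem_filter, Finset.mem_Icc] at hm
      obtain ⟨⟨h1, h2⟩, h3⟩ := hm
      simp only [Finset.mem_Ioc]
      exact ⟨Nat.div_pos (Nat.le_of_dvd (by omega) h3) (by omega), Nat.div_le_div_right h2⟩
    · intro d hd
      simp only [Finset.mem_Ioc] at hd
      simp only [Finset.mem_filter, Finset.mem_Icc]
      refine ⟨⟨Nat.mul_pos hd.1 (by omega), ?_⟩, Dvd.intro_left _ rfl⟩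
      exact (Nat.le_div_iff_mul_le (by omega)).mp hd.2
    · intro m hm
      simp only [Finset.mem_filter] at hm
      exact Nat.div_mul_cancel hm.2
    · intro d _
      exact Nat.mul_div_cancel _ (by omega)
    · intro m _; rfl
  have h4 : ∑ d ∈ Ioc 0 (Y / n), ArithmeticFunction.vonMangoldt d ≤
      (Real.log 4 + 4) * (Y / n) := by
    have h5 := Chebyshev.psi_le_const_mul_self (x := ((Y / n : ℕ) : ℝ)) (Nat.cast_nonneg _)
    unfold Chebyshev.psi at h5
    rw [Nat.floor_natCast] at h5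
    refine h5.trans (mul_le_mul_of_nonneg_left Nat.cast_div_le ?_)
    have := Real.log_nonneg (show (1 : ℝ) ≤ 4 by norm_num)
    linarith
  rw [h3]
  calc (∑ d ∈ Ioc 0 (Y / n), ArithmeticFunction.vonMangoldt d) * (1 * hh S n)
      ≤ (Real.log 4 + 4) * (Y / n) * (1 * hh S n) :=
        mul_le_mul_of_nonneg_right h4 (by have := hh_pos S n; positivity)
    _ = 1 * ((Real.log 4 + 4) * Y * (hh S n / n)) := by ring

lemma sum_all (S : Finset ℕ) (Y : ℕ) (hY : 1 ≤ Y) : (∑ m ∈ Icc 1 Y, hh S m) * Real.log Y ≤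
    (1 * (Real.log 4 + 4) + 1) * Y * ∑ m ∈ Icc 1 Y, hh S m / m := by
  have h1 : (∑ m ∈ Icc 1 Y, hh S m) * Real.log Y ≤
      ∑ m ∈ Icc 1 Y, hh S m * Real.log m + Y * ∑ m ∈ Icc 1 Y, hh S m / m := by
    rw [Finset.sum_mul, Finset.mul_sum, ← Finset.sum_add_distrib]
    refine Finset.sum_le_sum fun m hm => ?_
    obtain ⟨hm1, hm2⟩ := Finset.mem_Icc.mp hm
    have hm0 : (0 : ℝ) < m := by exact_mod_cast hm1
    have hY0 : (0 : ℝ) < Y := by exact_mod_cast hY
    have h2 : Real.log Y - Real.log m ≤ Y / m := by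
      rw [← Real.log_div hY0.ne' hm0.ne']
      have := Real.log_le_sub_one_of_pos (show (0 : ℝ) < Y / m by positivity)
      linarith
    have h3 := mul_le_mul_of_nonneg_left h2 (hh_pos S m).le
    have h4 : (Y : ℝ) * (hh S m / m) = hh S m * (Y / m) := by ring
    rw [h4]
    nlinarith
  have h2 := sum_log S Y
  linarith

/-- the Euler product bound -/
lemma euler (S : Finset ℕ) (Y : ℕ) : ∑ m ∈ Icc 1 Y, hh S m / m ≤
    ∏ p ∈ (Y + 1).primesBelow, (1 + hh S p / p + 2 / (p : ℝ) ^ 2) := by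
  set f : ℕ → ℝ := fun m => hh S m / m with hf
  have hf1 : f 1 = 1 := by simp [hf, hh_one]
  have hmul : ∀ {m n : ℕ}, Nat.Coprime m n → f (m * n) = f m * f n := by
    intro m n h
    simp only [hf]
    rw [hh_mul h]; push_cast; ring
  have hfpos : ∀ m, 0 ≤ f m := fun m => div_nonneg (hh_pos S m).le (Nat.cast_nonneg _)
  have hle : ∀ m, f m ≤ 1 / m := fun m => by
    simp only [hf]
    exact div_le_div_of_nonneg_right (hh_le_one S m) (Nat.cast_nonneg _)
  have hle' : ∀ p n : ℕ, f (p ^ n) ≤ (1 / p : ℝ) ^ n := fun p n => by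
    refine (hle _).trans (le_of_eq ?_)
    push_cast; rw [one_div_pow]
  have hgeo : ∀ {p : ℕ}, p.Prime → Summable (fun n : ℕ => (1 / p : ℝ) ^ n) := fun {p} hp =>
    summable_geometric_of_lt_one (by positivity) (by
      rw [div_lt_one (by exact_mod_cast hp.pos)]; exact_mod_cast hp.one_lt)
  have hsum : ∀ {p : ℕ}, p.Prime → Summable (fun n : ℕ => ‖f (p ^ n)‖) := fun {p} hp => by
    refine Summable.of_nonneg_of_le (fun n => norm_nonneg _) (fun n => ?_) (hgeo hp)
    rw [Real.norm_of_nonneg (hfpos _)]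
    exact hle' p n
  obtain ⟨hs, hh⟩ := EulerProduct.summable_and_hasSum_smoothNumbers_prod_primesBelow_tsum
    hf1 hmul hsum (Y + 1)
  have hprod : ∏ p ∈ (Y + 1).primesBelow, ∑' n : ℕ, f (p ^ n) ≤
      ∏ p ∈ (Y + 1).primesBelow, (1 + Pool.Agent.Y660.TS.hh S p / p + 2 / (p : ℝ) ^ 2) := by
    refine Finset.prod_le_prod (fun p _ => tsum_nonneg fun n => hfpos _) (fun p hp => ?_)
    have hpp : p.Prime := Nat.prime_of_mem_primesBelow hp
    have hp2 : (2 : ℝ) ≤ p := by exact_mod_cast hpp.two_le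
    have hsp : Summable (fun n : ℕ => f (p ^ n)) := (hsum hpp).of_norm
    rw [hsp.tsum_eq_zero_add, ((summable_nat_add_iff 1).mpr hsp).tsum_eq_zero_add]
    have h2 : ∑' n : ℕ, f (p ^ (n + 1 + 1)) ≤ 2 / (p : ℝ) ^ 2 := by
      have hs2 : Summable (fun n : ℕ => f (p ^ (n + 1 + 1))) :=
        (summable_nat_add_iff (f := fun n : ℕ => f (p ^ (n + 1))) 1).mpr
          ((summable_nat_add_iff (f := fun n : ℕ => f (p ^ n)) 1).mpr hsp)
      have hg := hgeo hpp
      have h3 : ∑' n : ℕ, f (p ^ (n + 1 + 1)) ≤ ∑' n : ℕ, (1 / p : ℝ) ^ 2 * (1 / p : ℝ) ^ n := by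
        refine hs2.tsum_le_tsum (fun n => ?_) (hg.mul_left _)
        refine (hle' p _).trans (le_of_eq ?_)
        ring
      refine h3.trans ?_
      rw [tsum_mul_left, tsum_geometric_of_lt_one (by positivity) (by
        rw [div_lt_one (by linarith)]; linarith)]
      have h4 : (1 - 1 / (p : ℝ))⁻¹ ≤ 2 := by
        rw [inv_le_comm₀ (by
          have : 1 / (p : ℝ) ≤ 1 / 2 := one_div_le_one_div_of_le (by norm_num) hp2
          linarith) (by norm_num)]
        have : 1 / (p : ℝ) ≤ 1 / 2 := one_div_le_one_div_of_le (by norm_num) hp2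
        norm_num at this ⊢
        linarith
      calc (1 / (p : ℝ)) ^ 2 * (1 - 1 / (p : ℝ))⁻¹ ≤ (1 / (p : ℝ)) ^ 2 * 2 :=
            mul_le_mul_of_nonneg_left h4 (by positivity)
        _ = 2 / (p : ℝ) ^ 2 := by rw [one_div_pow]; ring
    have e0 : f (p ^ 0) = 1 := by rw [pow_zero]; exact hf1
    have e1 : f (p ^ (0 + 1)) = Pool.Agent.Y660.TS.hh S p / p := by
      rw [zero_add, pow_one]
    rw [e0, e1]
    linarith
  refine le_trans ?_ hprod
  rw [← hh.tsum_eq]
  have hsm : Summable (fun m : (Y + 1).smoothNumbers => f m) := hh.summable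
  have hinj : ∀ m ∈ Icc 1 Y, m ∈ (Y + 1).smoothNumbers := fun m hm => by
    obtain ⟨h1, h2⟩ := Finset.mem_Icc.mp hm
    exact Nat.mem_smoothNumbers_of_lt (by omega) (by omega)
  let S1 : Finset (Y + 1).smoothNumbers := (Icc 1 Y).subtype (fun m => m ∈ (Y + 1).smoothNumbers)
  have hS : ∑ m ∈ S1, f m = ∑ m ∈ Icc 1 Y, f m := by
    rw [Finset.sum_subtype_of_mem f hinj]
  rw [← hS]
  exact hsm.sum_le_tsum S1 (fun m _ => hfpos _)

lemma sum_hp (S : Finset ℕ) (Y : ℕ) (hS : ∀ p ∈ S, p.Prime ∧ p ≤ Y) :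
    ∑ p ∈ (Y + 1).primesBelow, hh S p / p =
    ∑ p ∈ (Icc 1 Y).filter Nat.Prime, (1 : ℝ) / p - 1 / 2 * ∑ p ∈ S, (1 : ℝ) / p := by
  have h0 : (Y + 1).primesBelow = (Icc 1 Y).filter Nat.Prime := by
    ext p
    simp only [Nat.mem_primesBelow, Finset.mem_filter, Finset.mem_Icc]
    constructor
    · rintro ⟨h1, h2⟩
      exact ⟨⟨h2.one_lt.le, by omega⟩, h2⟩
    · rintro ⟨⟨h1, h2⟩, h3⟩
      exact ⟨by omega, h3⟩
  have h1 : ∑ p ∈ S, (1 : ℝ) / p =
      ∑ q ∈ (Icc 1 Y).filter Nat.Prime, if q ∈ S then (1 : ℝ) / q else 0 := by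
    rw [← Finset.sum_filter]
    apply Finset.sum_congr _ (fun _ _ => rfl)
    ext p
    simp only [Finset.mem_filter, Finset.mem_Icc]
    constructor
    · intro hp
      obtain ⟨h1, h2⟩ := hS p hp
      exact ⟨⟨⟨h1.one_lt.le, h2⟩, h1⟩, hp⟩
    · intro h
      exact h.2
  rw [h0, h1, Finset.mul_sum, ← Finset.sum_sub_distrib]
  refine Finset.sum_congr rfl fun p hp => ?_
  rw [hh_prime (Finset.mem_filter.mp hp).2]
  split_ifs <;> ring

lemma sum_harm (S : Finset ℕ) (Y : ℕ) (hS : ∀ p ∈ S, p.Prime ∧ p ≤ Y) :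
    ∑ m ∈ Icc 1 Y, hh S m / m ≤
    Real.exp (∑ p ∈ (Icc 1 Y).filter Nat.Prime, (1 : ℝ) / p - 1 / 2 * ∑ p ∈ S, (1 : ℝ) / p +
      2 * ∑' n : ℕ, 1 / (n : ℝ) ^ 2) := by
  refine (euler S Y).trans ?_
  have h1 : ∏ p ∈ (Y + 1).primesBelow, (1 + hh S p / p + 2 / (p : ℝ) ^ 2) ≤
      ∏ p ∈ (Y + 1).primesBelow, Real.exp (hh S p / p + 2 / (p : ℝ) ^ 2) := by
    refine Finset.prod_le_prod (fun p _ => ?_) (fun p _ => ?_)
    · have := hh_pos S p
      positivity
    · have := Real.add_one_le_exp (hh S p / p + 2 / (p : ℝ) ^ 2)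
      linarith
  refine h1.trans ?_
  rw [← Real.exp_sum, Real.exp_le_exp, Finset.sum_add_distrib, sum_hp S Y hS]
  have hs : Summable (fun n : ℕ => 1 / (n : ℝ) ^ 2) := Real.summable_one_div_nat_pow.2 (by norm_num)
  have h2 : ∑ p ∈ (Y + 1).primesBelow, 2 / (p : ℝ) ^ 2 ≤ 2 * ∑' n : ℕ, 1 / (n : ℝ) ^ 2 := by
    have h3 := hs.sum_le_tsum (Y + 1).primesBelow (fun n _ => by positivity)
    have h4 : ∑ p ∈ (Y + 1).primesBelow, 2 / (p : ℝ) ^ 2 =
        2 * ∑ p ∈ (Y + 1).primesBelow, 1 / (p : ℝ) ^ 2 := by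
      rw [Finset.mul_sum]
      exact Finset.sum_congr rfl fun p _ => by ring
    rw [h4]
    linarith
  linarith

lemma Nb_le (S : Finset ℕ) (J Y : ℕ) :
    (((Icc 1 Y).filter (fun n => (n.primeFactors ∩ S).card ≤ J)).card : ℝ) ≤
      2 ^ J * ∑ m ∈ Icc 1 Y, hh S m := by
  rw [Finset.card_eq_sum_ones, Finset.sum_filter, Finset.mul_sum]
  push_cast
  refine Finset.sum_le_sum fun m _ => ?_
  split_ifs with h
  · unfold hh
    have h1 : (1 / 2 : ℝ) ^ J ≤ (1 / 2 : ℝ) ^ cnt S m :=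
      pow_le_pow_of_le_one (by norm_num) (by norm_num) h
    have h2 : (2 : ℝ) ^ J * (1 / 2 : ℝ) ^ J = 1 := by rw [← mul_pow]; norm_num
    calc (1 : ℝ) = 2 ^ J * (1 / 2 : ℝ) ^ J := h2.symm
      _ ≤ 2 ^ J * (1 / 2 : ℝ) ^ cnt S m := mul_le_mul_of_nonneg_left h1 (by positivity)
  · have := hh_pos S m
    positivity

/-- **RNK** -/
theorem rnk : S_RNK := by
  obtain ⟨C2, hC2⟩ := Pool.Agent.Helper256.KM.mertens_inv
  obtain ⟨K, hK⟩ : ∃ K : ℝ, K = 2 * ∑' n : ℕ, 1 / (n : ℝ) ^ 2 := ⟨_, rfl⟩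
  have h4 : 0 ≤ Real.log 4 := Real.log_nonneg (by norm_num)
  obtain ⟨A, hA⟩ : ∃ A : ℝ, A = 1 * (Real.log 4 + 4) + 1 := ⟨_, rfl⟩
  have hA0 : 0 < A := by rw [hA]; positivity
  refine ⟨A * Real.exp (C2 + K) + 3, by positivity, fun S Y J hY hS => ?_⟩
  obtain ⟨RS, hRSd⟩ : ∃ RS : ℝ, RS = ∑ p ∈ S, (1 : ℝ) / p := ⟨_, rfl⟩
  rw [← hRSd]
  have hE : 0 < Real.exp (-(1 / 2) * RS) := Real.exp_pos _
  have hY0 : (0 : ℝ) < Y := by exact_mod_cast (by omega : 0 < Y)
  have hP : (0 : ℝ) < 2 ^ J := by positivity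
  rcases Nat.lt_or_ge Y 3 with h3 | h3
  · -- `Y = 2`
    have hY2 : Y = 2 := by omega
    subst hY2
    have hRS : RS ≤ 1 / 2 := by
      rw [hRSd]
      have hsub : S ⊆ {2} := by
        intro q hq
        obtain ⟨h1, h2⟩ := hS q hq
        have := h1.two_le
        rw [Finset.mem_singleton]; omega
      refine (Finset.sum_le_sum_of_subset_of_nonneg hsub (fun i _ _ => by positivity)).trans ?_
      simp
    have hexp : (1 / 2 : ℝ) ≤ Real.exp (-(1 / 2) * RS) := by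
      have h5 := Real.add_one_le_exp (-(1 / 2) * RS)
      linarith
    have hN := Nb_le S J 2
    have h5 : ∑ m ∈ Icc 1 2, hh S m ≤ 2 := by
      have h5 : ∑ m ∈ Icc 1 2, hh S m ≤ ∑ m ∈ Icc 1 2, (1 : ℝ) :=
        Finset.sum_le_sum fun m _ => hh_le_one S m
      refine h5.trans (le_of_eq ?_)
      simp
    have h6 : (2 : ℝ) ^ J * ∑ m ∈ Icc 1 2, hh S m ≤ 2 ^ J * 2 := mul_le_mul_of_nonneg_left h5 hP.le
    have h7 : 0 < A * Real.exp (C2 + K) := by positivity
    refine (hN.trans h6).trans ?_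
    have h9 : (3 : ℝ) * (2 : ℕ) * 2 ^ J ≤ (A * Real.exp (C2 + K) + 3) * (2 : ℕ) * 2 ^ J := by
      refine mul_le_mul_of_nonneg_right ?_ (by positivity)
      exact mul_le_mul_of_nonneg_right (by linarith) (by positivity)
    have h10 : (2 : ℝ) ^ J * 2 ≤ 3 * (2 : ℕ) * 2 ^ J * (1 / 2) := by
      push_cast
      nlinarith
    exact h10.trans (mul_le_mul h9 hexp (by norm_num) (by positivity))
  · have hlog : 0 < Real.log Y := Real.log_pos (by exact_mod_cast (by omega : 1 < Y))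
    have hM := (abs_le.mp (hC2 Y h3)).2
    have hall := sum_all S Y (by omega)
    have hharm := sum_harm S Y hS
    rw [← hK, ← hRSd] at hharm
    have h5 : ∑ m ∈ Icc 1 Y, hh S m / m ≤
        Real.exp (C2 + K) * Real.log Y * Real.exp (-(1 / 2) * RS) := by
      refine hharm.trans ?_
      have h6 : Real.exp (C2 + K) * Real.log Y * Real.exp (-(1 / 2) * RS) =
          Real.exp (C2 + K + Real.log (Real.log Y) + -(1 / 2) * RS) := by
        rw [Real.exp_add (C2 + K + Real.log (Real.log Y)), Real.exp_add (C2 + K) (Real.log _),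
          Real.exp_log hlog]
      rw [h6, Real.exp_le_exp]
      linarith
    have h6 : (∑ m ∈ Icc 1 Y, hh S m) * Real.log Y ≤
        (A * Y * (Real.exp (C2 + K) * Real.exp (-(1 / 2) * RS))) * Real.log Y := by
      rw [hA]
      refine hall.trans ?_
      rw [← hA]
      calc A * Y * ∑ m ∈ Icc 1 Y, hh S m / m
          ≤ A * Y * (Real.exp (C2 + K) * Real.log Y * Real.exp (-(1 / 2) * RS)) :=
            mul_le_mul_of_nonneg_left h5 (by positivity)
        _ = _ := by ring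
    have h7 := le_of_mul_le_mul_right h6 hlog
    refine (Nb_le S J Y).trans ?_
    calc (2 : ℝ) ^ J * ∑ m ∈ Icc 1 Y, hh S m
        ≤ 2 ^ J * (A * Y * (Real.exp (C2 + K) * Real.exp (-(1 / 2) * RS))) :=
          mul_le_mul_of_nonneg_left h7 hP.le
      _ = A * Real.exp (C2 + K) * Y * 2 ^ J * Real.exp (-(1 / 2) * RS) := by ring
      _ ≤ (A * Real.exp (C2 + K) + 3) * Y * 2 ^ J * Real.exp (-(1 / 2) * RS) := by
          refine mul_le_mul_of_nonneg_right ?_ hE.le
          refine mul_le_mul_of_nonneg_right ?_ hP.le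
          refine mul_le_mul_of_nonneg_right ?_ hY0.le
          linarith

end Pool.Agent.Y660.TS
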