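import Pool.Agent.W839.SH.Desc5

/-!
# Descent count for an arbitrary set of pairs of squarefree integers (job 443, helper660)

Adaptation of `Pool.Agent.W839.SH.desc5` (helper839).
-/

set_option autoImplicit false
set_option linter.unusedSectionVars false

namespace Pool.Agent.Y660.TS

open Finset Pool.Agent.W262.RK Pool.Agent.W599.RK Pool.Agent.W214.RK2 Pool.Agent.W262.SH
  Pool.Agent.W839.SH

/-- the number of the pairs of a set of pairs of squarefree integers which is unramified outside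
`N` and satisfies the local conditions `L` at the primes dividing `m` -/
theorem descg (S : Set (ℤ × ℤ)) (m : ℕ) (L : ℕ → Bool → Bool → Bool → Bool → Prop) (N : ℤ)
    (hN : N ≠ 0) (hsq : ∀ e ∈ S, Squarefree e.1 ∧ Squarefree e.2)
    (hun : ∀ e ∈ S, ∀ q : ℕ, q.Prime → ¬ (q : ℤ) ∣ N → ¬ (q : ℤ) ∣ e.1 ∧ ¬ (q : ℤ) ∣ e.2)
    (hm : Squarefree m) (hL : ∀ p, p.Prime → p ∣ m → XC (L p))
    (hloc : ∀ e ∈ S, ∀ p : ℕ, p.Prime → p ∣ m →
      L p (dv p e.1) (dv p e.2) (sgn p e.1) (sgn p e.2)) :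
    S.Finite ∧ S.ncard ≤
      4 ^ ((N.natAbs.primeFactors.filter (fun q => ¬ q ∣ m)).card + 2) * NL m L := by
  classical
  set OP : Finset ℕ := N.natAbs.primeFactors.filter (fun q => ¬ q ∣ m)
    with hOPdef
  have hOP : ∀ q : ℕ, q.Prime → (q : ℤ) ∣ N → ¬ q ∣ m → q ∈ OP := by
    intro q hq hqd hqs
    rw [hOPdef, Finset.mem_filter, Nat.mem_primeFactors]
    exact ⟨⟨hq, Int.natCast_dvd.mp hqd, Int.natAbs_ne_zero.mpr hN⟩, hqs⟩
  set F : Finset (ℕ × ℕ) := (m.divisors ×ˢ m.divisors).filter (fun d : ℕ × ℕ =>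
    ∀ p ∈ m.primeFactors, L p (dv p d.1) (dv p d.2) (sgn p d.1) (sgn p d.2)) with hF
  have hFcard : F.card = NL m L := by
    unfold NL
    rw [hF]
  have h10 : ∀ e ∈ S, (e.1 : ℚ) ≠ 0 := fun e he => by
    exact_mod_cast (hsq e he).1.ne_zero
  have h20 : ∀ e ∈ S, (e.2 : ℚ) ≠ 0 := fun e he => by
    exact_mod_cast (hsq e he).2.ne_zero
  -- comparison of two pairs with the same outer data
  have hcmp : ∀ e ∈ S, ∀ f ∈ S, outS OP e = outS OP f →
      ((0 : ℚ) < e.1 ↔ (0 : ℚ) < f.1) ∧ ((0 : ℚ) < e.2 ↔ (0 : ℚ) < f.2) ∧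
      (∀ q : ℕ, q.Prime → ¬ q ∣ m →
        (Even (padicValRat q (e.1 : ℚ)) ↔ Even (padicValRat q (f.1 : ℚ))) ∧
        (Even (padicValRat q (e.2 : ℚ)) ↔ Even (padicValRat q (f.2 : ℚ)))) := by
    intro e he f hf ho
    have h1 : decide (0 < e.1) = decide (0 < f.1) := congrArg Prod.fst ho
    have h23 := congrArg Prod.snd ho
    have h2 : decide (0 < e.2) = decide (0 < f.2) := congrArg Prod.fst h23
    have h3 := congrArg Prod.snd h23
    refine ⟨?_, ?_, fun q hq hqm => ?_⟩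
    · rw [Int.cast_pos, Int.cast_pos]
      exact decide_eq_decide.mp h1
    · rw [Int.cast_pos, Int.cast_pos]
      exact decide_eq_decide.mp h2
    by_cases hD : (q : ℤ) ∣ N
    · have h4 := congrFun h3 ⟨q, hOP q hq hD hqm⟩
      have h5 : decide (Even (padicValRat q (e.1 : ℚ))) = decide (Even (padicValRat q (f.1 : ℚ))) :=
        congrArg Prod.fst h4
      have h6 : decide (Even (padicValRat q (e.2 : ℚ))) =
          decide (Even (padicValRat q (f.2 : ℚ))) := congrArg Prod.snd h4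
      exact ⟨decide_eq_decide.mp h5, decide_eq_decide.mp h6⟩
    · obtain ⟨a1, a2⟩ := hun e he q hq hD
      obtain ⟨b1, b2⟩ := hun f hf q hq hD
      exact ⟨⟨fun _ => even_val hq b1, fun _ => even_val hq a1⟩,
        ⟨fun _ => even_val hq b2, fun _ => even_val hq a2⟩⟩
  have hsqs : ∀ e ∈ S, ∀ f ∈ S, outS OP e = outS OP f →
      IsSquare ((e.1 : ℚ) * (f.1 : ℚ) * (dd m (e.1 : ℚ) (f.1 : ℚ) : ℚ)) ∧
      IsSquare ((e.2 : ℚ) * (f.2 : ℚ) * (dd m (e.2 : ℚ) (f.2 : ℚ) : ℚ)) := by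
    intro e he f hf ho
    obtain ⟨c1, c2, c3⟩ := hcmp e he f hf ho
    exact ⟨dd_sq m hm _ _ (h10 e he) (h10 f hf) c1 (fun q hq hqm => (c3 q hq hqm).1),
      dd_sq m hm _ _ (h20 e he) (h20 f hf) c2 (fun q hq hqm => (c3 q hq hqm).2)⟩
  have hFmem : ∀ e ∈ S, ∀ f ∈ S, outS OP e = outS OP f →
      (dd m (e.1 : ℚ) (f.1 : ℚ), dd m (e.2 : ℚ) (f.2 : ℚ)) ∈ F := by
    intro e he f hf ho
    obtain ⟨s1, s2⟩ := hsqs e he f hf ho
    rw [hF, Finset.mem_filter, Finset.mem_product]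
    refine ⟨⟨Nat.mem_divisors.mpr ⟨dd_dvd m hm _ _, hm.ne_zero⟩,
      Nat.mem_divisors.mpr ⟨dd_dvd m hm _ _, hm.ne_zero⟩⟩, fun p hp => ?_⟩
    rw [Nat.mem_primeFactors] at hp
    have l1 := hloc e he p hp.1 hp.2.1
    have l2 := hloc f hf p hp.1 hp.2.1
    have hss : ∀ a : ℤ, IsSquare ((a : ℚ) * a) := fun a => ⟨a, rfl⟩
    obtain ⟨k1, k2⟩ := dd_key m hm _ _ (h10 e he) (h10 f hf) s1 e.1 f.1 (hsq e he).1 (hsq f hf).1
      (hss _) (hss _) p hp.1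
    obtain ⟨k3, k4⟩ := dd_key m hm _ _ (h20 e he) (h20 f hf) s2 e.2 f.2 (hsq e he).2 (hsq f hf).2
      (hss _) (hss _) p hp.1
    show L p (dv p (dd m (e.1 : ℚ) (f.1 : ℚ))) (dv p (dd m (e.2 : ℚ) (f.2 : ℚ)))
      (sgn p (dd m (e.1 : ℚ) (f.1 : ℚ))) (sgn p (dd m (e.2 : ℚ) (f.2 : ℚ)))
    rw [k1, k2, k3, k4]
    exact (hL p hp.1 hp.2.1).2 _ _ _ _ _ _ _ _ l1 l2
  -- representatives
  have hrep : ∃ rep : Out OP → ℤ × ℤ, ∀ e ∈ S, rep (outS OP e) ∈ S ∧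
      outS OP (rep (outS OP e)) = outS OP e := by
    refine ⟨fun o => if h : ∃ e ∈ S, outS OP e = o then h.choose else (0, 0),
      fun e he => ?_⟩
    have h : ∃ e' ∈ S, outS OP e' = outS OP e := ⟨e, he, rfl⟩
    simp only [dif_pos h]
    exact h.choose_spec
  obtain ⟨rep, hrep⟩ := hrep
  let K : ℤ × ℤ → Out OP × (ℕ × ℕ) := fun e =>
    (outS OP e, (dd m (e.1 : ℚ) ((rep (outS OP e)).1 : ℚ), dd m (e.2 : ℚ) ((rep (outS OP e)).2 : ℚ)))
  have hmaps : Set.MapsTo K S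
      (((Finset.univ : Finset (Out OP)) ×ˢ F : Finset (Out OP × (ℕ × ℕ))) : Set _) := by
    intro e he
    obtain ⟨r1, r2⟩ := hrep e he
    rw [Finset.mem_coe, Finset.mem_product]
    exact ⟨Finset.mem_univ _, hFmem e he _ r1 r2.symm⟩
  have canc : ∀ a b r : ℚ, ∀ d : ℕ, r ≠ 0 → d ≠ 0 → IsSquare (a * r * (d : ℚ)) →
      IsSquare (b * r * (d : ℚ)) → IsSquare (a * b) := by
    intro a b r d hr hd h1 h2
    have hd' : (d : ℚ) ≠ 0 := by exact_mod_cast hd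
    apply Pool.Agent.W599.RK.IsSquare.cancel (a := (r * d) ^ 2) (IsSquare.sq _)
    · have h3 := h1.mul h2
      have e : (r * (d : ℚ)) ^ 2 * (a * b) = a * r * d * (b * r * d) := by ring
      rw [e]; exact h3
    · exact pow_ne_zero 2 (mul_ne_zero hr hd')
  have hinj : Set.InjOn K S := by
    intro e he f hf hef
    have ho : outS OP e = outS OP f := congrArg Prod.fst hef
    have ht1 : dd m (e.1 : ℚ) ((rep (outS OP e)).1 : ℚ) =
      dd m (f.1 : ℚ) ((rep (outS OP f)).1 : ℚ) := congrArg (fun z => z.2.1) hef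
    have ht2 : dd m (e.2 : ℚ) ((rep (outS OP e)).2 : ℚ) =
      dd m (f.2 : ℚ) ((rep (outS OP f)).2 : ℚ) := congrArg (fun z => z.2.2) hef
    rw [← ho] at ht1 ht2
    obtain ⟨r1, r2⟩ := hrep e he
    obtain ⟨s1, s2⟩ := hsqs e he _ r1 r2.symm
    obtain ⟨s3, s4⟩ := hsqs f hf _ r1 (ho.symm.trans r2.symm)
    rw [← ht1] at s3
    rw [← ht2] at s4
    have hd1 : dd m (e.1 : ℚ) ((rep (outS OP e)).1 : ℚ) ≠ 0 :=
      (hm.squarefree_of_dvd (dd_dvd m hm _ _)).ne_zero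
    have hd2 : dd m (e.2 : ℚ) ((rep (outS OP e)).2 : ℚ) ≠ 0 :=
      (hm.squarefree_of_dvd (dd_dvd m hm _ _)).ne_zero
    have q1 : IsSquare ((e.1 : ℚ) * (f.1 : ℚ)) := canc _ _ _ _ (h10 _ r1) hd1 s1 s3
    have q2 : IsSquare ((e.2 : ℚ) * (f.2 : ℚ)) := canc _ _ _ _ (h20 _ r1) hd2 s2 s4
    exact Prod.ext (sqf_eq (hsq e he).1 (hsq f hf).1 q1) (sqf_eq (hsq e he).2 (hsq f hf).2 q2)
  refine ⟨Set.Finite.of_injOn hmaps hinj (Finset.finite_toSet _), ?_⟩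
  have h1 := Set.ncard_le_ncard_of_injOn K hmaps hinj (Finset.finite_toSet _)
  rw [Set.ncard_coe_finset, Finset.card_product, Finset.card_univ, card_out, hFcard] at h1
  refine h1.trans (Nat.mul_le_mul_right _ (Nat.pow_le_pow_right (by norm_num) (by omega)))

end Pool.Agent.Y660.TS
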