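import Pool.Agent.W307.FK.SelS
import Pool.Agent.Y676.Defs2
import Pool.Agent.Y660.TS.MomD

/-!
# The bound of the virtual Selmer groups `InT` by the local count (job 443, helper660)

Adaptation of `Pool.Agent.W307.FK.G.selfs` (helper307).
-/

set_option autoImplicit false

namespace Pool.Agent.Y660.TS

open Finset Pool.Agent.W262.RK Pool.Agent.W307.RT Pool.Agent.W571.RT Pool.Agent.W307.SE
  Pool.Agent.W307.FK Pool.Agent.W293.FK.Self
open Pool.Agent.W307.FK.G (SELFG AVGNG SSG)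
open Pool.Agent.Y676 (InT Lc sQ)

/-- the order of `InT` -/
noncomputable def nT (A B : ℤ) : ℕ := (InT A B).ncard

/-- the local conditions -/
lemma locT {f : Fin 3 → ℤ} {D : ℤ} {z y : ℕ} (_hD : D ≠ 0) (hz : 2 ≤ z) (hG : Gd z f)
    (hF : f 0 - f 1 = f 2) {p : ℕ} (hp : p.Prime) (hpD : ¬ (p : ℤ) ∣ D) {j : Fin 3}
    (hj : p ∣ S1 z y f j) (m : ℕ) (hm : m ≠ 0) (hpm : p ∣ m) {e : ℤ × ℤ}
    (he : e ∈ InT (D * f 0) (D * f 1)) :
    LR j (decide (p ∈ sgF (D * f 0) (D * f 1) m)) (dv p e.1) (dv p e.2) (sgn p e.1)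
      (sgn p e.2) := by
  obtain ⟨hPS, hjf, hjf2⟩ := (S1_dvd_iff hp).1 hj
  have hzp := (mem_PS.1 hPS).1.1
  have hp2 : p ≠ 2 := by omega
  have hpi : Prime (p : ℤ) := Nat.prime_iff_prime_int.1 hp
  have hother : ∀ l, j ≠ l → ¬ (p : ℤ) ∣ D * f l := by
    intro l hl h
    rcases hpi.dvd_or_dvd h with h | h
    · exact hpD h
    · exact hG.2 p hp hzp j l hl ⟨hjf, h⟩
  have hcop : ∀ l, j ≠ l → IsCoprime ((p : ℤ) ^ 2) (D * f l) := fun l hl =>
    IsCoprime.pow_left ((Prime.coprime_iff_not_dvd hpi).2 (hother l hl))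
  have hsqf : ¬ (p : ℤ) ^ 2 ∣ D * f j := by
    intro h
    exact hjf2 (Int.isCoprime_iff_gcd_eq_one.2 (by
      have h1 : IsCoprime ((p : ℤ) ^ 2) D :=
        IsCoprime.pow_left ((Prime.coprime_iff_not_dvd hpi).2 hpD)
      exact Int.isCoprime_iff_gcd_eq_one.1 h1) |>.dvd_of_dvd_mul_left h)
  have hAB : D * f 0 - D * f 1 = D * f 2 := by rw [← hF]; ring
  have hmem : p ∈ m.primeFactors := Nat.mem_primeFactors.2 ⟨hp, hpm, hm⟩
  have hj012 : j = 0 ∨ j = 1 ∨ j = 2 := by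
    fin_cases j <;> simp
  rcases hj012 with rfl | rfl | rfl
  · have a0 : (p : ℤ) ∣ D * f 0 := hjf.mul_left _
    have a1 : ¬ (p : ℤ) ∣ D * f 1 := hother 1 (by decide)
    have a2 : ¬ (p : ℤ) ∣ D * f 2 := hother 2 (by decide)
    have hns : ¬ (p : ℤ) ^ 2 ∣ D * f 0 * (D * f 1) * (D * f 0 - D * f 1) := by
      rw [hAB]
      intro h
      exact hsqf ((hcop 1 (by decide)).dvd_of_dvd_mul_right
        ((hcop 2 (by decide)).dvd_of_dvd_mul_right h))
    have hL := (he.2.2.2 p hp hp2 hns).1 a0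
    have hE : decide (p ∈ sgF (D * f 0) (D * f 1) m) = sg0 p (-(D * f 1)) := by
      unfold sg0 sgF
      rw [decide_eq_decide, mem_filter, hAB]
      simp [hmem, a0, a1, a2]
    have hs : sQ (D * f 0) (D * f 1) 1 p = sg0 p (-(D * f 1)) := by
      unfold sQ
      rw [if_pos a0, one_mul]
    rw [hs] at hL
    rw [hE]
    unfold LR
    rw [if_pos rfl]
    exact hL
  · have a1 : (p : ℤ) ∣ D * f 1 := hjf.mul_left _
    have a0 : ¬ (p : ℤ) ∣ D * f 0 := hother 0 (by decide)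
    have a2 : ¬ (p : ℤ) ∣ D * f 2 := hother 2 (by decide)
    have hns : ¬ (p : ℤ) ^ 2 ∣ D * f 0 * (D * f 1) * (D * f 0 - D * f 1) := by
      rw [hAB]
      intro h
      exact hsqf ((hcop 0 (by decide)).dvd_of_dvd_mul_left
        ((hcop 2 (by decide)).dvd_of_dvd_mul_right h))
    have hL := (he.2.2.2 p hp hp2 hns).2.1 a1
    have hE : decide (p ∈ sgF (D * f 0) (D * f 1) m) = sg0 p (-(D * f 0)) := by
      unfold sg0 sgF
      rw [decide_eq_decide, mem_filter, hAB]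
      simp [hmem, a0, a1, a2]
    have hs : sQ (D * f 0) (D * f 1) 1 p = sg0 p (-(D * f 0)) := by
      unfold sQ
      rw [if_neg a0, if_pos a1, one_mul]
    rw [hs] at hL
    rw [hE]
    unfold LR
    rw [if_neg (by decide), if_pos rfl]
    exact hL
  · have a2 : (p : ℤ) ∣ D * f 2 := hjf.mul_left _
    have a0 : ¬ (p : ℤ) ∣ D * f 0 := hother 0 (by decide)
    have a1 : ¬ (p : ℤ) ∣ D * f 1 := hother 1 (by decide)
    have hns : ¬ (p : ℤ) ^ 2 ∣ D * f 0 * (D * f 1) * (D * f 0 - D * f 1) := by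
      rw [hAB]
      intro h
      exact hsqf (((hcop 0 (by decide)).mul_right (hcop 1 (by decide))).dvd_of_dvd_mul_left h)
    have hL := (he.2.2.2 p hp hp2 hns).2.2 (by rw [hAB]; exact a2)
    have hE : decide (p ∈ sgF (D * f 0) (D * f 1) m) = sg0 p (D * f 0) := by
      unfold sg0 sgF
      rw [decide_eq_decide, mem_filter, hAB]
      simp [hmem, a0, a1, a2]
    have hs : sQ (D * f 0) (D * f 1) 1 p = sg0 p (D * f 0) := by
      unfold sQ
      rw [if_neg a0, if_neg a1, one_mul]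
    rw [hs] at hL
    rw [hE]
    unfold LR
    rw [if_neg (by decide), if_neg (by decide)]
    exact hL

lemma prod_ne {A B : ℤ} (hA : A ≠ 0) (hB : B ≠ 0) (hAB : A ≠ B) : 2 * A * B * (A - B) ≠ 0 :=
  mul_ne_zero (mul_ne_zero (mul_ne_zero two_ne_zero hA) hB) (sub_ne_zero.mpr hAB)

/-- `InT` is finite -/
lemma finT {A B : ℤ} (hA : A ≠ 0) (hB : B ≠ 0) (hAB : A ≠ B) : (InT A B).Finite :=
  (descg (InT A B) 1 (fun _ _ _ _ _ => True) (2 * A * B * (A - B)) (prod_ne hA hB hAB)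
    (fun _ he => ⟨he.1, he.2.1⟩) (fun _ he q hq hqN => he.2.2.1 q hq hqN)
    squarefree_one (fun _ _ _ => ⟨trivial, fun _ _ _ _ _ _ _ _ _ _ => trivial⟩)
    (fun _ _ _ _ _ => trivial)).1

theorem selft : SELFG nT := by
  intro f D z y X k B hz hD hG hF hb hX hy hk
  have h : SUBL := Pool.Agent.W940.FK.subl
  have hf0 := hG.1
  have hmem : S1 z y f ∈ Tup (Fin 3) z y := S1_mem hG.2
  obtain ⟨m, hm⟩ : ∃ m, m = ∏ j, S1 z y f j := ⟨_, rfl⟩
  rw [← hm]
  have hmd : m ∣ PP z y := by rw [hm]; exact Tup_prod_dvd hmem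
  have hmsq : Squarefree m := (PP_squarefree z y).squarefree_of_dvd hmd
  have hm0 : m ≠ 0 := hmsq.ne_zero
  have hPSof : ∀ p : ℕ, p.Prime → p ∣ m → p ∈ PS z y := fun p hp h =>
    (prime_dvd_PP hp).1 (h.trans hmd)
  have hodd2 : ∀ p : ℕ, p.Prime → p ∣ m → p ≠ 2 := by
    intro p hp h
    have h1 := (mem_PS.1 (hPSof p hp h)).1.1
    omega
  have hmodd : Odd m := by
    rw [← Nat.not_even_iff_odd, even_iff_two_dvd]
    intro h
    exact hodd2 2 Nat.prime_two h rfl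
  obtain ⟨m', hm'⟩ : ∃ m', m' = ∏ p ∈ m.primeFactors.filter (fun p => ¬ p ∣ D.natAbs), p :=
    ⟨_, rfl⟩
  obtain ⟨e, he⟩ : ∃ e, e = ∏ p ∈ m.primeFactors.filter (fun p => p ∣ D.natAbs), p := ⟨_, rfl⟩
  have hme : m' * e = m := by
    rw [hm', he, mul_comm, prod_filter_mul_prod_filter_not]
    exact Nat.prod_primeFactors_of_squarefree hmsq
  have hpm' : ∀ p : ℕ, p.Prime → (p ∣ m' ↔ p ∣ m ∧ ¬ p ∣ D.natAbs) := by
    intro p hp
    rw [hm', Prime.dvd_finsetProd_iff hp.prime]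
    constructor
    · rintro ⟨q, hq, hpq⟩
      rw [mem_filter, Nat.mem_primeFactors] at hq
      rw [(Nat.prime_dvd_prime_iff_eq hp hq.1.1).1 hpq]
      exact ⟨hq.1.2.1, hq.2⟩
    · rintro ⟨h1, h2⟩
      exact ⟨p, mem_filter.2 ⟨Nat.mem_primeFactors.2 ⟨hp, h1, hm0⟩, h2⟩, dvd_rfl⟩
  have hpe : ∀ p : ℕ, p.Prime → (p ∣ e ↔ p ∣ m ∧ p ∣ D.natAbs) := by
    intro p hp
    rw [he, Prime.dvd_finsetProd_iff hp.prime]
    constructor
    · rintro ⟨q, hq, hpq⟩
      rw [mem_filter, Nat.mem_primeFactors] at hq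
      rw [(Nat.prime_dvd_prime_iff_eq hp hq.1.1).1 hpq]
      exact ⟨hq.1.2.1, hq.2⟩
    · rintro ⟨h1, h2⟩
      exact ⟨p, mem_filter.2 ⟨Nat.mem_primeFactors.2 ⟨hp, h1, hm0⟩, h2⟩, dvd_rfl⟩
  have hm'm : m' ∣ m := Dvd.intro _ hme
  have hem : e ∣ m := Dvd.intro_left _ hme
  obtain ⟨L, hL⟩ : ∃ L, L = LF (S1 z y f) (sgF (D * f 0) (D * f 1) m) := ⟨_, rfl⟩
  rw [← hL]
  have hA : D * f 0 ≠ 0 := mul_ne_zero hD (hf0 0)
  have hB' : D * f 1 ≠ 0 := mul_ne_zero hD (hf0 1)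
  have hAB' : D * f 0 - D * f 1 = D * f 2 := by rw [← hF]; ring
  have hne : D * f 0 ≠ D * f 1 := by
    intro h
    exact mul_ne_zero hD (hf0 2) (by rw [← hAB', h, sub_self])
  have hxc : ∀ p, XC (L p) := fun p => by rw [hL]; exact xcLF _ _ p
  have hd := descg (InT (D * f 0) (D * f 1)) m' L (2 * (D * f 0) * (D * f 1) * (D * f 0 - D * f 1))
    (prod_ne hA hB' hne) (fun _ he => ⟨he.1, he.2.1⟩) (fun _ he q hq hqN => he.2.2.1 q hq hqN)
    (hmsq.squarefree_of_dvd hm'm) (fun p _ _ => hxc p)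
    (fun e' he' p hpp hpd => by
      rw [hL]
      intro j hj
      obtain ⟨hpm, hpD⟩ := (hpm' p hpp).1 hpd
      exact locT hD hz hG hF hpp (fun h => hpD (Int.natCast_dvd.1 h)) hj m hm0 hpm he')
  unfold nT
  refine hd.2.trans ?_
  have hsubl := h m' e L (by rw [hme]; exact hmodd) (by rw [hme]; exact hmsq)
    (fun p _ _ => hxc p) (fun p hp hpd => by
      obtain ⟨h1, -⟩ := (hpe p hp).1 hpd
      rw [hm, Prime.dvd_finsetProd_iff hp.prime] at h1
      obtain ⟨j, -, hj⟩ := h1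
      refine ⟨j, fun h' g' hphi => ?_⟩
      rw [hL]
      intro j' hj'
      have hjj : j' = j := by
        by_contra hcon
        have a1 := (S1_dvd_iff hp).1 hj
        have a2 := (S1_dvd_iff hp).1 hj'
        exact hG.2 p hp (mem_PS.1 a1.1).1.1 j' j hcon ⟨a2.2.1, a1.2.1⟩
      rw [hjj]
      exact phiLR _ _ _ _ hphi)
  rw [hme] at hsubl
  have hec : e.primeFactors.card ≤ D.natAbs.primeFactors.card := by
    apply card_le_card
    intro p hp
    rw [Nat.mem_primeFactors] at hp ⊢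
    exact ⟨hp.1, ((hpe p hp.1).1 hp.2.1).2, Int.natAbs_ne_zero.2 hD⟩
  have hbad := bad (m' := m') hz hD hf0 hb hk hy (fun q hq h1 h2 => by
    rw [← hm] at h1
    exact (hpm' q hq).2 ⟨h1, h2⟩)
  rw [← hAB'] at hbad
  have h8 : 8 ^ D.natAbs.primeFactors.card
      = 4 ^ D.natAbs.primeFactors.card * 2 ^ D.natAbs.primeFactors.card := by
    rw [← mul_pow]
    norm_num
  calc _ ≤ 4 ^ ((z + 2) + (Fintype.card (Fin 3) * (B * k))
        + ∑ j, (S2 z y f j).primeFactors.card + D.natAbs.primeFactors.card)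
        * (2 ^ D.natAbs.primeFactors.card * NL m L) := by
        refine Nat.mul_le_mul (Nat.pow_le_pow_right (by norm_num) (by omega)) ?_
        exact hsubl.trans (Nat.mul_le_mul_right _ (Nat.pow_le_pow_right (by norm_num) hec))
    _ = _ := by
        rw [h8, pow_add, pow_add, pow_add]
        have e2 : ((4 ^ B) ^ Fintype.card (Fin 3)) ^ k = 4 ^ (Fintype.card (Fin 3) * (B * k)) := by
          rw [← pow_mul, ← pow_mul]
          congr 1
          ring
        rw [e2]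
        ring

end Pool.Agent.Y660.TS
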